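import Mathlib
import Pool.Agent.Helper42.Tiling.Defs
import Pool.Agent.Helper42.Tiling.Final

/-!
MP_99f693_co: there is a homeohedral tiling of the plane satisfying N.1 and N.2 that has a
singular point. All definitions (`Plane`, `IsTiling`, `N1`, `N2`, `MapsOntoItself`, `Homeohedral`,
`IsSingularPoint`) are in `Pool.Agent.Helper42.Tiling.Defs`.
-/

namespace Pool.Agent.Results.MP_99f693_co.SingularTiling

open Pool.Agent.Helper42.Tiling

/-- There is a homeohedral tiling of the plane satisfying N.1 and N.2 with a singular point. -/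
theorem result : ∃ 𝒯 : Set (Set Plane), IsTiling 𝒯 ∧ N1 𝒯 ∧ N2 𝒯 ∧ Homeohedral 𝒯 ∧
    ∃ x : Plane, IsSingularPoint 𝒯 x :=
  main

end Pool.Agent.Results.MP_99f693_co.SingularTiling
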